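import Mathlib
import Pool.Agent.Lib.MP_2bb03e_al.Final

set_option autoImplicit false

namespace Pool.Agent.Results.MP_2bb03e_al.PiSeparableProduct

universe u

/-- Separability of a finite group `G` with respect to coprime numbers `a`, `b` (in the theorem
`a = |A|`, `b = |B|`, so that `|G| = a b`, and `π` is the set of primes dividing `a`): every proper
normal subgroup `N` of `G` is properly contained in a normal subgroup `M` of `G` whose index
`|M : N|` is coprime to `a` or coprime to `b`. When `|G| = a b` this says that `G` has a normal
series all of whose factors are `π`-groups or `π'`-groups, that is, `G` is `π`-separable. -/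
def PiSeparable (G : Type u) [Group G] (a b : ℕ) : Prop :=
  ∀ N : Subgroup G, N.Normal → N ≠ ⊤ → ∃ M : Subgroup G, M.Normal ∧ N < M ∧
    ((N.relIndex M).Coprime a ∨ (N.relIndex M).Coprime b)

/-- Let `G = A B` be a finite group with `|A|` and `|B|` coprime. If `G` is solvable or, more
generally, `π`-separable for the set `π` of primes dividing `|A|`, then `k(G) ≤ k(A) k(B)`. -/
theorem result (G : Type u) [Group G] [Finite G] (A B : Subgroup G)
    (hcop : Nat.Coprime (Nat.card A) (Nat.card B))
    (hAB : ∀ g : G, ∃ a ∈ A, ∃ b ∈ B, g = a * b)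
    (hsep : Group.IsSolvable G ∨ PiSeparable G (Nat.card A) (Nat.card B)) :
    Nat.card (ConjClasses G) ≤ Nat.card (ConjClasses A) * Nat.card (ConjClasses B) := by
  have : Fintype G := Fintype.ofFinite G
  have hcard := Pool.MP_2bb03e_al.KG.card_mul_of_fact A B hcop hAB
  refine Pool.MP_2bb03e_al.KG.main_piSep A B hcop hcard ?_
  rcases hsep with h | h
  · exact Pool.MP_2bb03e_al.KG.piSep_of_solvable G h _ _ hcop
  · exact h

end Pool.Agent.Results.MP_2bb03e_al.PiSeparableProduct
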